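import Mathlib
import Pool.Agent.Y418.TQ.TGraph

set_option autoImplicit false

namespace Pool.Agent.Y418.TQ.TDeg

open Pool.Agent.Y418.TQ.TGraph

/-- The hub vertex at which strand `y` of the band `(d, a)` starts. -/
def sHub (m : Pr) (d : Bool) (a : Fin 5) (y : ℕ) : Vx :=
  if d then .hub a (2 * y) (2 ^ ex m a - 1) else .hub a (2 * 2 ^ ex m a - 1) y

/-- The hub vertex at which strand `y` of the band `(d, a)` ends. -/
def eHub (d : Bool) (a : Fin 5) (y : ℕ) : Vx :=
  if d then .hub (a + 2) (2 * y) 0 else .hub (a + 1) 0 y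

lemma inv_band_right {m : Pr} {d : Bool} {a : Fin 5} {t y : ℕ} {w : Vx}
    (h : E m (.band d a t y) w) :
    (∃ y', t + 1 < 5 * m.n ∧ w = .band d a (t + 1) y' ∧ St (bl m d a t) (bl m d a (t + 1)) y y') ∨
    (t = 5 * m.n - 1 ∧ w = eHub d a y) := by
  generalize hv : Vx.band d a t y = v at h
  cases h with
  | hh | hv | s0 | s1 => simp at hv
  | bb d a t y y' h1 h2 h3 h4 =>
    simp only [Vx.band.injEq] at hv
    obtain ⟨rfl, rfl, rfl, rfl⟩ := hv
    exact Or.inl ⟨y', h1, rfl, h4⟩
  | e0 a y h1 =>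
    simp only [Vx.band.injEq] at hv
    obtain ⟨rfl, rfl, rfl, rfl⟩ := hv
    exact Or.inr ⟨rfl, rfl⟩
  | e1 a y h1 =>
    simp only [Vx.band.injEq] at hv
    obtain ⟨rfl, rfl, rfl, rfl⟩ := hv
    exact Or.inr ⟨rfl, rfl⟩

lemma inv_band_left {m : Pr} {d : Bool} {a : Fin 5} {t y : ℕ} {w : Vx}
    (h : E m w (.band d a t y)) :
    (∃ t' y', t = t' + 1 ∧ w = .band d a t' y' ∧
      St (bl m d a t') (bl m d a (t' + 1)) y' y) ∨ (t = 0 ∧ w = sHub m d a y) := by
  generalize hv : Vx.band d a t y = v at h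
  cases h with
  | hh | hv | e0 | e1 => simp at hv
  | bb d a t y y' h1 h2 h3 h4 =>
    simp only [Vx.band.injEq] at hv
    obtain ⟨rfl, rfl, rfl, rfl⟩ := hv
    exact Or.inl ⟨t, y, rfl, rfl, h4⟩
  | s0 a y h1 =>
    simp only [Vx.band.injEq] at hv
    obtain ⟨rfl, rfl, rfl, rfl⟩ := hv
    exact Or.inr ⟨rfl, rfl⟩
  | s1 a y h1 =>
    simp only [Vx.band.injEq] at hv
    obtain ⟨rfl, rfl, rfl, rfl⟩ := hv
    exact Or.inr ⟨rfl, rfl⟩

lemma inv_hub_right {m : Pr} {a : Fin 5} {X j : ℕ} {w : Vx} (h : E m (.hub a X j) w) :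
    (w = .hub a (X + 1) j ∧ X + 1 < 2 * 2 ^ ex m a) ∨
    (w = .hub a X (j + 1) ∧ j + 1 < 2 ^ ex m a ∧ (X + j) % 2 = 1) ∨
    (w = .band false a 0 j ∧ X = 2 * 2 ^ ex m a - 1) ∨
    (∃ y, X = 2 * y ∧ j = 2 ^ ex m a - 1 ∧ w = .band true a 0 y) := by
  generalize hv : Vx.hub a X j = v at h
  cases h with
  | hh a X j h1 h2 =>
    simp only [Vx.hub.injEq] at hv
    obtain ⟨rfl, rfl, rfl⟩ := hv
    exact Or.inl ⟨rfl, h1⟩
  | hv a X j h1 h2 h3 =>
    simp only [Vx.hub.injEq] at hv
    obtain ⟨rfl, rfl, rfl⟩ := hv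
    exact Or.inr (Or.inl ⟨rfl, h2, h3⟩)
  | s0 a y h1 =>
    simp only [Vx.hub.injEq] at hv
    obtain ⟨rfl, rfl, rfl⟩ := hv
    exact Or.inr (Or.inr (Or.inl ⟨rfl, rfl⟩))
  | s1 a y h1 =>
    simp only [Vx.hub.injEq] at hv
    obtain ⟨rfl, rfl, rfl⟩ := hv
    exact Or.inr (Or.inr (Or.inr ⟨_, rfl, rfl, rfl⟩))
  | bb | e0 | e1 => simp at hv

lemma inv_hub_left {m : Pr} {a : Fin 5} {X j : ℕ} {w : Vx} (h : E m w (.hub a X j)) :
    (∃ X', X = X' + 1 ∧ w = .hub a X' j) ∨
    (∃ j', j = j' + 1 ∧ w = .hub a X j' ∧ (X + j') % 2 = 1) ∨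
    (X = 0 ∧ w = .band false (a - 1) (5 * m.n - 1) j) ∨
    (∃ y, X = 2 * y ∧ j = 0 ∧ w = .band true (a - 2) (5 * m.n - 1) y) := by
  generalize hv : Vx.hub a X j = v at h
  cases h with
  | hh a X j h1 h2 =>
    simp only [Vx.hub.injEq] at hv
    obtain ⟨rfl, rfl, rfl⟩ := hv
    exact Or.inl ⟨_, rfl, rfl⟩
  | hv a X j h1 h2 h3 =>
    simp only [Vx.hub.injEq] at hv
    obtain ⟨rfl, rfl, rfl⟩ := hv
    exact Or.inr (Or.inl ⟨_, rfl, rfl, h3⟩)
  | s0 | s1 | bb => simp at hv
  | e0 a y h1 =>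
    simp only [Vx.hub.injEq] at hv
    obtain ⟨rfl, rfl, rfl⟩ := hv
    exact Or.inr (Or.inr (Or.inl ⟨rfl, by rw [add_sub_cancel_right]⟩))
  | e1 a y h1 =>
    simp only [Vx.hub.injEq] at hv
    obtain ⟨rfl, rfl, rfl⟩ := hv
    exact Or.inr (Or.inr (Or.inr ⟨_, rfl, rfl, by rw [add_sub_cancel_right]⟩))

lemma pow_even {m : Pr} (hm : 0 < m.m ∧ 0 < m.r) (a : Fin 5) : ∃ k, 2 ^ ex m a = 2 * k ∧ 0 < k := by
  have h := le_ex m a
  obtain ⟨n, hn⟩ := Nat.exists_eq_add_of_le (show 1 ≤ ex m a by omega)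
  refine ⟨2 ^ n, ?_, by positivity⟩
  rw [hn, pow_add, pow_one]

lemma three (m : Pr) (hm : 0 < m.m ∧ 0 < m.r) (v : Vx) :
    ∃ p q r : Vx, ∀ w, (E m v w ∨ E m w v) → w = p ∨ w = q ∨ w = r := by
  cases v with
  | hub a X j =>
    obtain ⟨k, hk, hk0⟩ := pow_even hm a
    refine ⟨if X + 1 < 2 * 2 ^ ex m a then .hub a (X + 1) j else .band false a 0 j,
      if X = 0 then .band false (a - 1) (5 * m.n - 1) j else .hub a (X - 1) j,
      if (X + j) % 2 = 1 then (if j + 1 < 2 ^ ex m a then .hub a X (j + 1)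
        else .band true a 0 (X / 2)) else
        (if j = 0 then .band true (a - 2) (5 * m.n - 1) (X / 2) else .hub a X (j - 1)), ?_⟩
    rintro w (h | h)
    · rcases inv_hub_right h with ⟨rfl, h1⟩ | ⟨rfl, h1, h2⟩ | ⟨rfl, h1⟩ | ⟨y, rfl, h1, rfl⟩
      · left; rw [if_pos h1]
      · right; right; rw [if_pos h2, if_pos h1]
      · left; rw [if_neg (by omega)]
      · right; right
        rw [if_pos (by omega), if_neg (by omega), Nat.mul_div_cancel_left _ (by norm_num)]
    · rcases inv_hub_left h with ⟨X', rfl, rfl⟩ | ⟨j', rfl, rfl, h2⟩ | ⟨rfl, rfl⟩ | ⟨y, rfl, rfl, rfl⟩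
      · right; left; rw [if_neg (by omega), Nat.add_sub_cancel]
      · right; right; rw [if_neg (by omega), if_neg (by omega), Nat.add_sub_cancel]
      · right; left; rw [if_pos rfl]
      · right; right
        rw [if_neg (by omega), if_pos rfl, Nat.mul_div_cancel_left _ (by norm_num)]
  | band d a t y =>
    by_cases hup : ex m a ≤ ex m (nb d a)
    · refine ⟨if t = 0 then sHub m d a y else
          .band d a (t - 1) (y / 2 ^ (bl m d a t - bl m d a (t - 1))),
        if t + 1 < 5 * m.n then .band d a (t + 1) (y * 2 ^ (bl m d a (t + 1) - bl m d a t))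
          else eHub d a y,
        .band d a (t + 1) (y * 2 ^ (bl m d a (t + 1) - bl m d a t) + 1), ?_⟩
      rintro w (h | h)
      · rcases inv_band_right h with ⟨y', h1, rfl, h2⟩ | ⟨h1, rfl⟩
        · right
          rw [if_pos h1]
          obtain ⟨b1, b2⟩ := bl_up m d a hup t
          unfold St at h2
          have e1 : bl m d a t - bl m d a (t + 1) = 0 := by omega
          rw [e1, pow_zero, Nat.div_one] at h2
          rcases (show bl m d a (t + 1) - bl m d a t = 0 ∨ bl m d a (t + 1) - bl m d a t = 1 by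
            omega) with e2 | e2
          · rw [e2, pow_zero, Nat.div_one] at h2
            rw [e2]
            left
            rw [h2]; simp
          · rw [e2, pow_one] at h2
            rw [e2, pow_one]
            have : y' = y * 2 ∨ y' = y * 2 + 1 := by omega
            rcases this with rfl | rfl
            · left; rfl
            · right; rfl
        · right; left
          rw [if_neg (by have := hm; omega)]
      · rcases inv_band_left h with ⟨t', y', rfl, rfl, h2⟩ | ⟨rfl, rfl⟩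
        · left
          rw [if_neg (by omega), Nat.add_sub_cancel]
          obtain ⟨b1, b2⟩ := bl_up m d a hup t'
          unfold St at h2
          have e1 : bl m d a t' - bl m d a (t' + 1) = 0 := by omega
          rw [e1, pow_zero, Nat.div_one] at h2
          rw [h2]
        · left; rw [if_pos rfl]
    · refine ⟨if t = 0 then sHub m d a y else
          .band d a (t - 1) (y * 2 ^ (bl m d a (t - 1) - bl m d a t)),
        if t + 1 < 5 * m.n then .band d a (t + 1) (y / 2 ^ (bl m d a t - bl m d a (t + 1)))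
          else eHub d a y,
        .band d a (t - 1) (y * 2 ^ (bl m d a (t - 1) - bl m d a t) + 1), ?_⟩
      rintro w (h | h)
      · rcases inv_band_right h with ⟨y', h1, rfl, h2⟩ | ⟨h1, rfl⟩
        · right; left
          rw [if_pos h1]
          obtain ⟨b1, b2⟩ := bl_down m d a hup t
          unfold St at h2
          have e1 : bl m d a (t + 1) - bl m d a t = 0 := by omega
          rw [e1, pow_zero, Nat.div_one] at h2
          rw [h2]
        · right; left
          rw [if_neg (by have := hm; omega)]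
      · rcases inv_band_left h with ⟨t', y', rfl, rfl, h2⟩ | ⟨rfl, rfl⟩
        · rw [if_neg (by omega), Nat.add_sub_cancel]
          obtain ⟨b1, b2⟩ := bl_down m d a hup t'
          unfold St at h2
          have e1 : bl m d a (t' + 1) - bl m d a t' = 0 := by omega
          rw [e1, pow_zero, Nat.div_one] at h2
          rcases (show bl m d a t' - bl m d a (t' + 1) = 0 ∨ bl m d a t' - bl m d a (t' + 1) = 1 by
            omega) with e2 | e2
          · rw [e2, pow_zero, Nat.div_one] at h2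
            rw [e2]
            left
            rw [h2]; simp
          · rw [e2, pow_one] at h2
            rw [e2, pow_one]
            have : y' = y * 2 ∨ y' = y * 2 + 1 := by omega
            rcases this with rfl | rfl
            · left; rfl
            · right; right; rfl
        · left; rw [if_pos rfl]

theorem degree (m : Pr) (hm : 0 < m.m ∧ 0 < m.r) (v : W m) : ((G m hm).neighborSet v).encard ≤ 3 := by
  obtain ⟨p, q, r, h⟩ := three m hm v.1
  have h1 : Subtype.val '' ((G m hm).neighborSet v) ⊆ {p, q, r} := by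
    rintro _ ⟨w, hw, rfl⟩
    exact h w.1 hw
  have h2 : ((Subtype.val '' ((G m hm).neighborSet v) : Set Vx)).encard ≤ 3 := by
    refine (Set.encard_le_encard h1).trans ?_
    refine (Set.encard_insert_le _ _).trans ?_
    have := Set.encard_insert_le ({r} : Set Vx) q
    rw [Set.encard_singleton] at this
    calc ({q, r} : Set Vx).encard + 1 ≤ (1 + 1) + 1 := by gcongr
      _ = 3 := by norm_num
  rwa [Subtype.val_injective.encard_image] at h2

end Pool.Agent.Y418.TQ.TDeg
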