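import Mathlib
import Pool.Agent.Y418.TQ.TPath

set_option autoImplicit false

namespace Pool.Agent.Y418.TQ.TCyl

open Pool.Agent.Y418.TQ.TGraph Pool.Agent.Y418.TQ.TDeg Pool.Agent.Helper448.TProb
  Pool.Agent.Y418.TQ.TPath

/-- Cylinders whose union contains the event that the pair is used. -/
def K (m : Pr) (d : Bool) (a : Fin 5) : Vx → Vx → Finset (Co × ℕ × ℕ)
  | .hub x X j, .hub _ _ _ =>
      if x = a ∨ x = nb d a then {(rowc d a x, ex m x, j), (colc d a x, ex m x, X / 2)} else ∅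
  | .band _ _ t y, .band _ _ t' y' =>
      if bl m d a t ≤ bl m d a t' then {(strand d a, bl m d a t', y')}
      else {(strand d a, bl m d a t, y)}
  | .hub _ _ _, .band _ _ _ y => {(strand d a, ex m a, y)}
  | .band _ _ _ y, .hub _ _ _ => {(strand d a, ex m (nb d a), y)}

variable {m : Pr} {d : Bool} {a : Fin 5}

lemma U_K {ω : Om m} {u w : Vx} (h : U m d a ω u w) :
    ∃ c ∈ K m d a u w, vl m ω c.1 c.2.1 = c.2.2 := by
  cases h with
  | rw x hx X h =>
    refine ⟨(rowc d a x, ex m x, vl m ω (rowc d a x) (ex m x)), ?_, rfl⟩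
    simp [K, hx]
  | rg x hx j h =>
    refine ⟨(colc d a x, ex m x, vl m ω (colc d a x) (ex m x)), ?_, rfl⟩
    simp only [K, if_pos hx, Finset.mem_insert, Finset.mem_singleton]
    right
    rw [Nat.mul_div_cancel_left _ (by norm_num)]
  | vt x hx X j h h2 h3 =>
    refine ⟨(colc d a x, ex m x, X / 2), ?_, h.symm⟩
    simp [K, hx]
  | st =>
    refine ⟨(strand d a, ex m a, vl m ω (strand d a) (ex m a)), ?_, rfl⟩
    cases d <;> simp [K, sHub]
  | md t h =>
    by_cases hb : bl m d a t ≤ bl m d a (t + 1)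
    · refine ⟨(strand d a, bl m d a (t + 1), vl m ω (strand d a) (bl m d a (t + 1))), ?_, rfl⟩
      simp [K, hb]
    · refine ⟨(strand d a, bl m d a t, vl m ω (strand d a) (bl m d a t)), ?_, rfl⟩
      simp [K, hb]
  | en =>
    refine ⟨(strand d a, ex m (nb d a), vl m ω (strand d a) (ex m (nb d a))), ?_, rfl⟩
    cases d <;> simp [K, eHub]

/-- Coordinates relevant for a band. -/
def Rel (d : Bool) (a : Fin 5) (i : Co) : Prop :=
  i = strand d a ∨ ∃ x, (x = a ∨ x = nb d a) ∧ (i = row x ∨ i = col x)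

lemma rel_rowc {x : Fin 5} (hx : x = a ∨ x = nb d a) : Rel d a (rowc d a x) := by
  unfold Rel rowc
  cases d
  · left; rfl
  · right; exact ⟨x, hx, Or.inl rfl⟩

lemma rel_colc {x : Fin 5} (hx : x = a ∨ x = nb d a) : Rel d a (colc d a x) := by
  unfold Rel colc
  cases d
  · right; exact ⟨x, hx, Or.inr rfl⟩
  · left; rfl

lemma K_rel {u w : Vx} {c : Co × ℕ × ℕ} (hc : c ∈ K m d a u w) :
    Rel d a c.1 ∧ m.m ≤ c.2.1 ∧ c.2.1 ≤ 5 * m.n := by
  cases u with
  | hub x X j =>
    cases w with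
    | hub x' X' j' =>
      simp only [K] at hc
      split_ifs at hc with hx
      · simp only [Finset.mem_insert, Finset.mem_singleton] at hc
        rcases hc with rfl | rfl
        · exact ⟨rel_rowc hx, le_ex m x, ex_le m x⟩
        · exact ⟨rel_colc hx, le_ex m x, ex_le m x⟩
      · simp at hc
    | band d' a' t' y' =>
      simp only [K, Finset.mem_singleton] at hc
      subst hc
      exact ⟨Or.inl rfl, le_ex m a, ex_le m a⟩
  | band d' a' t y =>
    cases w with
    | hub x' X' j' =>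
      simp only [K, Finset.mem_singleton] at hc
      subst hc
      exact ⟨Or.inl rfl, le_ex m _, ex_le m _⟩
    | band d'' a'' t' y' =>
      simp only [K] at hc
      split_ifs at hc with hx
      · simp only [Finset.mem_singleton] at hc
        subst hc
        exact ⟨Or.inl rfl, le_bl m d a t', bl_le m d a t'⟩
      · simp only [Finset.mem_singleton] at hc
        subst hc
        exact ⟨Or.inl rfl, le_bl m d a t, bl_le m d a t⟩

lemma rel_disj {d' : Bool} {a' : Fin 5} (h1 : a ≠ a') (h2 : a ≠ nb d' a') (h3 : nb d a ≠ a')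
    (h4 : nb d a ≠ nb d' a') {i i' : Co} (h : Rel d a i) (h' : Rel d' a' i') : i ≠ i' := by
  rintro rfl
  unfold Rel strand row col at *
  rcases h with rfl | ⟨x, hx, rfl | rfl⟩ <;>
  rcases h' with h' | ⟨x', hx', h' | h'⟩ <;>
    simp only [Prod.mk.injEq, Bool.true_eq_false, Bool.false_eq_true, false_and, and_false,
      true_and] at h'
  · exact h1 h'.2
  · subst h'
    rcases hx with rfl | rfl <;> rcases hx' with hx' | hx'
    · exact h1 hx'
    · exact h2 hx'
    · exact h3 hx'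
    · exact h4 hx'
  · subst h'
    rcases hx with rfl | rfl <;> rcases hx' with hx' | hx'
    · exact h1 hx'
    · exact h2 hx'
    · exact h3 hx'
    · exact h4 hx'

/-- Weight of a pair. -/
noncomputable def wt (m : Pr) (d : Bool) (a : Fin 5) (u w : Vx) : ℝ :=
  ∑ c ∈ K m d a u w, (1 / 2 : ℝ) ^ c.2.1

lemma wt_nonneg (u w : Vx) : 0 ≤ wt m d a u w := by
  unfold wt; positivity

lemma joint {d' : Bool} {a' : Fin 5} (h1 : a ≠ a') (h2 : a ≠ nb d' a') (h3 : nb d a ≠ a')
    (h4 : nb d a ≠ nb d' a') (u w u' w' : Vx) :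
    pr (fun ω : Om m => U m d a ω u w ∧ U m d' a' ω u' w') ≤ wt m d a u w * wt m d' a' u' w' := by
  have e1 : pr (fun ω : Om m => U m d a ω u w ∧ U m d' a' ω u' w') ≤
      pr (fun ω : Om m => ∃ c ∈ K m d a u w, ∃ c' ∈ K m d' a' u' w',
        (vl m ω c.1 c.2.1 = c.2.2 ∧ vl m ω c'.1 c'.2.1 = c'.2.2)) := by
    apply pr_mono
    rintro ω ⟨hu, hu'⟩
    obtain ⟨c, hc, e⟩ := U_K hu
    obtain ⟨c', hc', e'⟩ := U_K hu'
    exact ⟨c, hc, c', hc', e, e'⟩
  refine e1.trans ?_
  refine (pr_exists (K m d a u w) (fun c ω => ∃ c' ∈ K m d' a' u' w',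
        (vl m ω c.1 c.2.1 = c.2.2 ∧ vl m ω c'.1 c'.2.1 = c'.2.2))).trans ?_
  unfold wt
  rw [Finset.sum_mul]
  apply Finset.sum_le_sum
  intro c hc
  refine (pr_exists (K m d' a' u' w') (fun c' ω =>
        (vl m ω c.1 c.2.1 = c.2.2 ∧ vl m ω c'.1 c'.2.1 = c'.2.2))).trans ?_
  rw [Finset.mul_sum]
  apply Finset.sum_le_sum
  intro c' hc'
  obtain ⟨r1, r2, r3⟩ := K_rel hc
  obtain ⟨r1', r2', r3'⟩ := K_rel hc'
  exact pr_val2 r3 r3' (rel_disj h1 h2 h3 h4 r1 r1') _ _

lemma single (u w : Vx) : pr (fun ω : Om m => U m d a ω u w) ≤ wt m d a u w := by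
  have e1 : pr (fun ω : Om m => U m d a ω u w) ≤
      pr (fun ω : Om m => ∃ c ∈ K m d a u w, vl m ω c.1 c.2.1 = c.2.2) :=
    pr_mono fun ω hu => U_K hu
  refine e1.trans ((pr_exists (K m d a u w) (fun c ω => vl m ω c.1 c.2.1 = c.2.2)).trans ?_)
  unfold wt
  apply Finset.sum_le_sum
  intro c hc
  exact pr_val (K_rel hc).2.2 _ _

lemma wt_le_of {b : ℝ} {n : ℕ} (u w : Vx) (hb : 0 ≤ b) (hn : (K m d a u w).card ≤ n)
    (h : ∀ c ∈ K m d a u w, (1 / 2 : ℝ) ^ c.2.1 ≤ b) : wt m d a u w ≤ n * b := by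
  unfold wt
  refine (Finset.sum_le_card_nsmul _ _ b h).trans ?_
  rw [nsmul_eq_mul]
  gcongr

lemma K_card (u w : Vx) : (K m d a u w).card ≤ 2 := by
  cases u with
  | hub x X j =>
    cases w with
    | hub x' X' j' =>
      simp only [K]
      split_ifs
      · exact Finset.card_le_two
      · simp
    | band d' a' t' y' => simp [K]
  | band d' a' t y =>
    cases w with
    | hub x' X' j' => simp [K]
    | band d'' a'' t' y' =>
      simp only [K]
      split_ifs <;> simp

lemma wt_le (u w : Vx) : wt m d a u w ≤ 2 * (1 / 2) ^ m.m := by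
  have := wt_le_of (m := m) (d := d) (a := a) (b := (1 / 2 : ℝ) ^ m.m) (n := 2) u w (by positivity)
    (K_card u w) (fun c hc => pow_le_pow_of_le_one (by norm_num) (by norm_num) (K_rel hc).2.1)
  exact_mod_cast this

lemma wt_hub (x x' : Fin 5) (X j X' j' : ℕ) :
    wt m d a (.hub x X j) (.hub x' X' j') ≤ 2 * (1 / 2) ^ ex m x := by
  have := wt_le_of (m := m) (d := d) (a := a) (b := (1 / 2 : ℝ) ^ ex m x) (n := 2)
    (.hub x X j) (.hub x' X' j') (by positivity)
    (K_card _ _) (by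
      intro c hc
      simp only [K] at hc
      split_ifs at hc with hx
      · simp only [Finset.mem_insert, Finset.mem_singleton] at hc
        rcases hc with rfl | rfl <;> exact le_rfl
      · simp at hc)
  exact_mod_cast this

lemma wt_hb (x : Fin 5) (X j : ℕ) (d' : Bool) (a' : Fin 5) (t y : ℕ) :
    wt m d a (.hub x X j) (.band d' a' t y) = (1 / 2) ^ ex m a := by
  simp [wt, K]

lemma wt_bh (x : Fin 5) (X j : ℕ) (d' : Bool) (a' : Fin 5) (t y : ℕ) :
    wt m d a (.band d' a' t y) (.hub x X j) = (1 / 2) ^ ex m (nb d a) := by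
  simp [wt, K]

lemma wt_bb (d' d'' : Bool) (a' a'' : Fin 5) (t y t' y' : ℕ) :
    wt m d a (.band d' a' t y) (.band d'' a'' t' y') =
      (1 / 2) ^ max (bl m d a t) (bl m d a t') := by
  simp only [wt, K]
  split_ifs with h
  · rw [Finset.sum_singleton, max_eq_right h]
  · rw [Finset.sum_singleton, max_eq_left (by omega)]

end Pool.Agent.Y418.TQ.TCyl
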