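import Mathlib
import Pool.Agent.Y418.TQ.TGraph

set_option autoImplicit false

namespace Pool.Agent.Y418.TQ.TGeo

open Set Pool.Agent.Helper448.TDefs Pool.Agent.Helper448.TEmbed Pool.Agent.Helper448.TTile
  Pool.Agent.Helper448.TCov Pool.Agent.Y418.TQ.TGraph

/-- The tile of a vertex. -/
noncomputable def R (m : Pr) : Vx → Rect
  | .hub a X j => ⟨(a.val : ℝ) + X / (4 * 2 ^ ex m a), (a.val : ℝ) + (X + 1) / (4 * 2 ^ ex m a),
      j / (2 * 2 ^ ex m a), (j + 1) / (2 * 2 ^ ex m a)⟩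
  | .band false a t y => ⟨(a.val : ℝ) + 1 / 2 + t / (10 * m.n), (a.val : ℝ) + 1 / 2 + (t + 1) / (10 * m.n),
      y / (2 * 2 ^ bl m false a t), (y + 1) / (2 * 2 ^ bl m false a t)⟩
  | .band true a t y => ⟨(a.val : ℝ) + y / (2 * 2 ^ bl m true a t),
      (a.val : ℝ) + (y + 1) / (2 * 2 ^ bl m true a t), 1 / 2 + t / (10 * m.n), 1 / 2 + (t + 1) / (10 * m.n)⟩

lemma step_lt (A p : ℝ) (hp : 0 < p) : A / p < (A + 1) / p := by
  apply div_lt_div_of_pos_right _ hp; linarith

lemma idx {A B : ℕ} {p z : ℝ} (hp : 0 < p) (h1 : (A : ℝ) / p < z) (h2 : z < ((A : ℝ) + 1) / p)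
    (h3 : (B : ℝ) / p < z) (h4 : z < ((B : ℝ) + 1) / p) : A = B := by
  rw [div_lt_iff₀ hp] at h1 h3
  rw [lt_div_iff₀ hp] at h2 h4
  have h5 : (A : ℝ) < B + 1 := by linarith
  have h6 : (B : ℝ) < A + 1 := by linarith
  have h5' : A < B + 1 := by exact_mod_cast h5
  have h6' : B < A + 1 := by exact_mod_cast h6
  omega

lemma nn (A : ℕ) (p : ℝ) (hp : 0 < p) : 0 ≤ (A : ℝ) / p := by positivity

lemma half2 {A N : ℕ} (h : A < N) (hN : 0 < N) : ((A : ℝ) + 1) / (2 * N) ≤ 1 / 2 := by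
  have h1 : (0 : ℝ) < N := by exact_mod_cast hN
  have h2 : ((A : ℝ) + 1) ≤ N := by exact_mod_cast h
  rw [div_le_div_iff₀ (by positivity) (by norm_num)]
  linarith

lemma half4 {A N : ℕ} (h : A < 2 * N) (hN : 0 < N) : ((A : ℝ) + 1) / (4 * N) ≤ 1 / 2 := by
  have h1 : (0 : ℝ) < N := by exact_mod_cast hN
  have h2 : ((A : ℝ) + 1) ≤ 2 * N := by exact_mod_cast h
  rw [div_le_div_iff₀ (by positivity) (by norm_num)]
  linarith

lemma half10 {A m : ℕ} (h : A < 5 * m) (hN : 0 < m) : ((A : ℝ) + 1) / (10 * m) ≤ 1 / 2 := by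
  have h1 : (0 : ℝ) < m := by exact_mod_cast hN
  have h2 : ((A : ℝ) + 1) ≤ 5 * m := by exact_mod_cast h
  rw [div_le_div_iff₀ (by positivity) (by norm_num)]
  linarith

/-- Which part of the unit cell a vertex lives in. -/
lemma mem_hub {m : Pr} {a : Fin 5} {X j : ℕ} {z : R2} (hv : valid m (.hub a X j))
    (hz : z ∈ (R m (.hub a X j)).op) :
    (a.val : ℝ) < z.1 ∧ z.1 < a.val + 1 / 2 ∧ 0 < z.2 ∧ z.2 < 1 / 2 := by
  obtain ⟨⟨h1, h2⟩, h3, h4⟩ := hz
  simp only [R] at h1 h2 h3 h4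
  have hN : 0 < 2 ^ ex m a := by positivity
  have e1 := half4 hv.1 hN
  have e2 := half2 hv.2 hN
  push_cast at e1 e2
  have e3 := nn X (4 * 2 ^ ex m a) (by positivity)
  have e4 := nn j (2 * 2 ^ ex m a) (by positivity)
  exact ⟨by linarith, by linarith, by linarith, by linarith⟩

lemma mem_bandf {m : Pr} (hm : 0 < m.m ∧ 0 < m.r) {a : Fin 5} {t y : ℕ} {z : R2}
    (hv : valid m (.band false a t y)) (hz : z ∈ (R m (.band false a t y)).op) :
    (a.val : ℝ) + 1 / 2 < z.1 ∧ z.1 < a.val + 1 ∧ 0 < z.2 ∧ z.2 < 1 / 2 := by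
  obtain ⟨⟨h1, h2⟩, h3, h4⟩ := hz
  simp only [R] at h1 h2 h3 h4
  have hN : 0 < 2 ^ bl m false a t := by positivity
  have e1 := half10 hv.1 (Pr.npos hm)
  have e2 := half2 hv.2 hN
  push_cast at e1 e2
  have e3 := nn t (10 * m.n) (by have := Pr.npos hm; positivity)
  have e4 := nn y (2 * 2 ^ bl m false a t) (by positivity)
  exact ⟨by linarith, by linarith, by linarith, by linarith⟩

lemma mem_bandt {m : Pr} (hm : 0 < m.m ∧ 0 < m.r) {a : Fin 5} {t y : ℕ} {z : R2}
    (hv : valid m (.band true a t y)) (hz : z ∈ (R m (.band true a t y)).op) :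
    (a.val : ℝ) < z.1 ∧ z.1 < a.val + 1 / 2 ∧ 1 / 2 < z.2 ∧ z.2 < 1 := by
  obtain ⟨⟨h1, h2⟩, h3, h4⟩ := hz
  simp only [R] at h1 h2 h3 h4
  have hN : 0 < 2 ^ bl m true a t := by positivity
  have e1 := half10 hv.1 (Pr.npos hm)
  have e2 := half2 hv.2 hN
  push_cast at e1 e2
  have e3 := nn t (10 * m.n) (by have := Pr.npos hm; positivity)
  have e4 := nn y (2 * 2 ^ bl m true a t) (by positivity)
  exact ⟨by linarith, by linarith, by linarith, by linarith⟩

lemma cell_unique {a b : Fin 5} {z : ℝ} (h1 : (a.val : ℝ) < z) (h2 : z < a.val + 1)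
    (h3 : (b.val : ℝ) < z) (h4 : z < b.val + 1) : a = b := by
  have h5 : (a.val : ℝ) < b.val + 1 := by linarith
  have h6 : (b.val : ℝ) < a.val + 1 := by linarith
  have h5' : a.val < b.val + 1 := by exact_mod_cast h5
  have h6' : b.val < a.val + 1 := by exact_mod_cast h6
  exact Fin.ext (by omega)

lemma mem_dom {m : Pr} (hm : 0 < m.m ∧ 0 < m.r) {v : Vx} (hv : valid m v) {z : R2} (hz : z ∈ (R m v).op) :
    z ∈ Ioo (0 : ℝ) 5 ×ˢ Ioo (0 : ℝ) 1 := by
  have hc : ∀ a : Fin 5, (0 : ℝ) ≤ a.val ∧ (a.val : ℝ) + 1 ≤ 5 := by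
    intro a
    refine ⟨by positivity, ?_⟩
    have := a.isLt
    exact_mod_cast this
  cases v with
  | hub a X j =>
    obtain ⟨h1, h2, h3, h4⟩ := mem_hub hv hz
    have := hc a
    exact ⟨⟨by linarith, by linarith⟩, by linarith, by linarith⟩
  | band d a t y =>
    have := hc a
    cases d with
    | false =>
      obtain ⟨h1, h2, h3, h4⟩ := mem_bandf hm hv hz
      exact ⟨⟨by linarith, by linarith⟩, by linarith, by linarith⟩
    | true =>
      obtain ⟨h1, h2, h3, h4⟩ := mem_bandt hm hv hz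
      exact ⟨⟨by linarith, by linarith⟩, by linarith, by linarith⟩

lemma tile_disj {m : Pr} (hm : 0 < m.m ∧ 0 < m.r) {u w : Vx} (hu : valid m u) (hw : valid m w) {z : R2}
    (h1 : z ∈ (R m u).op) (h2 : z ∈ (R m w).op) : u = w := by
  have hm0 : 0 < m.n := Pr.npos hm
  have hm' : (0 : ℝ) < m.n := by exact_mod_cast hm0
  cases u with
  | hub a X j =>
    have e1 := mem_hub hu h1
    cases w with
    | hub b X' j' =>
      have e2 := mem_hub hw h2
      have hab : a = b := cell_unique e1.1 (by linarith [e1.2.1]) e2.1 (by linarith [e2.2.1])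
      subst hab
      obtain ⟨⟨a1, a2⟩, a3, a4⟩ := h1
      obtain ⟨⟨b1, b2⟩, b3, b4⟩ := h2
      simp only [R] at a1 a2 a3 a4 b1 b2 b3 b4
      have hX : X = X' := idx (p := 4 * 2 ^ ex m a) (z := z.1 - a.val) (by positivity)
        (by linarith) (by linarith) (by linarith) (by linarith)
      have hj : j = j' := idx (p := 2 * 2 ^ ex m a) (z := z.2) (by positivity) a3 a4 b3 b4
      rw [hX, hj]
    | band d b t y =>
      cases d with
      | false =>
        have e2 := mem_bandf hm hw h2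
        have hab : a = b := cell_unique e1.1 (by linarith [e1.2.1]) (by linarith [e2.1])
          (by linarith [e2.2.1])
        subst hab
        linarith [e1.2.1, e2.1]
      | true =>
        have e2 := mem_bandt hm hw h2
        linarith [e1.2.2.2, e2.2.2.1]
  | band d a t y =>
    cases d with
    | false =>
      have e1 := mem_bandf hm hu h1
      cases w with
      | hub b X' j' =>
        have e2 := mem_hub hw h2
        have hab : a = b := cell_unique (by linarith [e1.1]) (by linarith [e1.2.1]) e2.1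
          (by linarith [e2.2.1])
        subst hab
        linarith [e1.1, e2.2.1]
      | band d b t' y' =>
        cases d with
        | false =>
          have e2 := mem_bandf hm hw h2
          have hab : a = b := cell_unique (z := z.1) (by linarith [e1.1]) (by linarith [e1.2.1])
            (by linarith [e2.1]) (by linarith [e2.2.1])
          subst hab
          obtain ⟨⟨a1, a2⟩, a3, a4⟩ := h1
          obtain ⟨⟨b1, b2⟩, b3, b4⟩ := h2
          simp only [R] at a1 a2 a3 a4 b1 b2 b3 b4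
          have hX : t = t' := idx (p := 10 * m.n) (z := z.1 - a.val - 1 / 2) (by positivity)
            (by linarith) (by linarith) (by linarith) (by linarith)
          subst hX
          have hj : y = y' := idx (p := 2 * 2 ^ bl m false a t) (z := z.2) (by positivity)
            a3 a4 b3 b4
          rw [hj]
        | true =>
          have e2 := mem_bandt hm hw h2
          linarith [e1.2.2.2, e2.2.2.1]
    | true =>
      have e1 := mem_bandt hm hu h1
      cases w with
      | hub b X' j' =>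
        have e2 := mem_hub hw h2
        linarith [e1.2.2.1, e2.2.2.2]
      | band d b t' y' =>
        cases d with
        | false =>
          have e2 := mem_bandf hm hw h2
          linarith [e1.2.2.1, e2.2.2.2]
        | true =>
          have e2 := mem_bandt hm hw h2
          have hab : a = b := cell_unique e1.1 (by linarith [e1.2.1]) e2.1 (by linarith [e2.2.1])
          subst hab
          obtain ⟨⟨a1, a2⟩, a3, a4⟩ := h1
          obtain ⟨⟨b1, b2⟩, b3, b4⟩ := h2
          simp only [R] at a1 a2 a3 a4 b1 b2 b3 b4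
          have hX : t = t' := idx (p := 10 * m.n) (z := z.2 - 1 / 2) (by positivity)
            (by linarith) (by linarith) (by linarith) (by linarith)
          subst hX
          have hj : y = y' := idx (p := 2 * 2 ^ bl m true a t) (z := z.1 - a.val) (by positivity)
            (by linarith) (by linarith) (by linarith) (by linarith)
          rw [hj]

lemma R_pos {m : Pr} (hm : 0 < m.m ∧ 0 < m.r) (v : Vx) :
    (R m v).x0 < (R m v).x1 ∧ (R m v).y0 < (R m v).y1 := by
  have hm0 : 0 < m.n := Pr.npos hm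
  have hm' : (0 : ℝ) < m.n := by exact_mod_cast hm0
  cases v with
  | hub a X j =>
    simp only [R]
    have h1 := step_lt (X : ℝ) (4 * 2 ^ ex m a) (by positivity)
    have h2 := step_lt (j : ℝ) (2 * 2 ^ ex m a) (by positivity)
    exact ⟨by linarith, by linarith⟩
  | band d a t y =>
    cases d with
    | false =>
      simp only [R]
      have h1 := step_lt (t : ℝ) (10 * m.n) (by positivity)
      have h2 := step_lt (y : ℝ) (2 * 2 ^ bl m false a t) (by positivity)
      exact ⟨by linarith, by linarith⟩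
    | true =>
      simp only [R]
      have h1 := step_lt (t : ℝ) (10 * m.n) (by positivity)
      have h2 := step_lt (y : ℝ) (2 * 2 ^ bl m true a t) (by positivity)
      exact ⟨by linarith, by linarith⟩

/-- Rows meeting each other overlap. -/
lemma overlap {l l' y y' : ℕ} (h : St l l' y y') : ∃ z : ℝ,
    (y : ℝ) / (2 * 2 ^ l) < z ∧ z < (y + 1) / (2 * 2 ^ l) ∧
    (y' : ℝ) / (2 * 2 ^ l') < z ∧ z < (y' + 1) / (2 * 2 ^ l') := by
  have key : ∀ {l l' y y' : ℕ}, l ≤ l' → y' / 2 ^ (l' - l) = y → ∃ z : ℝ,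
      (y : ℝ) / (2 * 2 ^ l) < z ∧ z < (y + 1) / (2 * 2 ^ l) ∧
      (y' : ℝ) / (2 * 2 ^ l') < z ∧ z < (y' + 1) / (2 * 2 ^ l') := by
    intro l l' y y' hl h
    obtain ⟨k, rfl⟩ := Nat.exists_eq_add_of_le hl
    rw [Nat.add_sub_cancel_left] at h
    have hk : 0 < 2 ^ k := by positivity
    have h1 : y * 2 ^ k ≤ y' := by rw [← h]; exact Nat.div_mul_le_self _ _
    have h2 : y' + 1 ≤ (y + 1) * 2 ^ k := by
      rw [← h]
      exact Nat.lt_mul_of_div_lt (Nat.lt_succ_self _) hk
    have h1' : (y : ℝ) * 2 ^ k ≤ y' := by exact_mod_cast h1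
    have h2' : (y' : ℝ) + 1 ≤ (y + 1) * 2 ^ k := by exact_mod_cast h2
    refine ⟨(y' + 1 / 2) / (2 * 2 ^ (l + k)), ?_, ?_, ?_, ?_⟩
    · rw [div_lt_div_iff₀ (by positivity) (by positivity), pow_add]
      nlinarith [pow_pos (two_pos : (0 : ℝ) < 2) l]
    · rw [div_lt_div_iff₀ (by positivity) (by positivity), pow_add]
      nlinarith [pow_pos (two_pos : (0 : ℝ) < 2) l]
    · apply div_lt_div_of_pos_right _ (by positivity); linarith
    · apply div_lt_div_of_pos_right _ (by positivity); linarith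
  unfold St at h
  rcases le_total l l' with hl | hl
  · have : l - l' = 0 := by omega
    rw [this, pow_zero, Nat.div_one] at h
    exact key hl h
  · have : l' - l = 0 := by omega
    rw [this, pow_zero, Nat.div_one] at h
    obtain ⟨z, h1, h2, h3, h4⟩ := key hl h.symm
    exact ⟨z, h3, h4, h1, h2⟩

lemma side_same {r s : Rect} (c : R2)
    (h : ((c.1 = r.x1 ∧ r.y0 < c.2 ∧ c.2 < r.y1 ∧ c.1 = s.x0 ∧ s.y0 < c.2 ∧ c.2 < s.y1) ∨
      (c.2 = r.y1 ∧ r.x0 < c.1 ∧ c.1 < r.x1 ∧ c.2 = s.y0 ∧ s.x0 < c.1 ∧ c.1 < s.x1))) :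
    ∃ c1 c2, Side cov r s c1 c2 := ⟨c, c, fun _ => rfl, h⟩

lemma val_add_one (a : Fin 5) : ∃ n : ℤ, (((a + 1 : Fin 5)).val : ℝ) = a.val + 1 - 5 * n := by
  have h : ∀ a : Fin 5, (a + 1).val = a.val + 1 ∨ (a + 1).val + 5 = a.val + 1 := by decide
  rcases h a with h | h
  · refine ⟨0, ?_⟩
    have : ((a + 1).val : ℝ) = a.val + 1 := by exact_mod_cast h
    rw [this]; push_cast; ring
  · refine ⟨1, ?_⟩
    have : ((a + 1).val : ℝ) + 5 = a.val + 1 := by exact_mod_cast h
    push_cast; linarith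

lemma val_add_two (a : Fin 5) : ∃ n : ℤ, (((a + 2 : Fin 5)).val : ℝ) = a.val + 2 - 5 * n := by
  have h : ∀ a : Fin 5, (a + 2).val = a.val + 2 ∨ (a + 2).val + 5 = a.val + 2 := by decide
  rcases h a with h | h
  · refine ⟨0, ?_⟩
    have : ((a + 2).val : ℝ) = a.val + 2 := by exact_mod_cast h
    rw [this]; push_cast; ring
  · refine ⟨1, ?_⟩
    have : ((a + 2).val : ℝ) + 5 = a.val + 2 := by exact_mod_cast h
    push_cast; linarith

lemma sides {m : Pr} (hm : 0 < m.m ∧ 0 < m.r) {u w : Vx} (h : E m u w) :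
    ∃ c1 c2, Side cov (R m u) (R m w) c1 c2 := by
  have hm0 : 0 < m.n := Pr.npos hm
  have hm' : (0 : ℝ) < m.n := by exact_mod_cast hm0
  cases h with
  | hh a X j h1 h2 =>
    have e1 := step_lt (j : ℝ) (2 * 2 ^ ex m a) (by positivity)
    refine side_same ((a.val : ℝ) + (X + 1) / (4 * 2 ^ ex m a),
      ((j : ℝ) / (2 * 2 ^ ex m a) + (j + 1) / (2 * 2 ^ ex m a)) / 2) (Or.inl ?_)
    simp only [R]
    push_cast
    exact ⟨trivial, by linarith, by linarith, rfl, by linarith, by linarith⟩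
  | hv a X j h1 h2 h3 =>
    have e1 := step_lt (X : ℝ) (4 * 2 ^ ex m a) (by positivity)
    refine side_same ((a.val : ℝ) + ((X : ℝ) / (4 * 2 ^ ex m a) + (X + 1) / (4 * 2 ^ ex m a)) / 2,
      ((j : ℝ) + 1) / (2 * 2 ^ ex m a)) (Or.inr ?_)
    simp only [R]
    push_cast
    exact ⟨trivial, by linarith, by linarith, rfl, by linarith, by linarith⟩
  | s0 a y h1 =>
    have e1 := step_lt (y : ℝ) (2 * 2 ^ ex m a) (by positivity)
    refine side_same ((a.val : ℝ) + 1 / 2,
      ((y : ℝ) / (2 * 2 ^ ex m a) + (y + 1) / (2 * 2 ^ ex m a)) / 2) (Or.inl ?_)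
    simp only [R, bl_zero]
    have hN : 1 ≤ 2 * 2 ^ ex m a := by have := Nat.one_le_two_pow (n := ex m a); omega
    have e2 : (((2 * 2 ^ ex m a - 1 : ℕ) : ℝ) + 1) / (4 * 2 ^ ex m a) = 1 / 2 := by
      rw [Nat.cast_sub hN]; push_cast
      field_simp; ring
    rw [e2]
    push_cast
    refine ⟨rfl, by linarith, by linarith, by ring, by linarith, by linarith⟩
  | s1 a y h1 =>
    have e1 := step_lt ((2 * y : ℕ) : ℝ) (4 * 2 ^ ex m a) (by positivity)
    refine side_same ((a.val : ℝ) + (((2 * y : ℕ) : ℝ) / (4 * 2 ^ ex m a) +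
      (((2 * y : ℕ) : ℝ) + 1) / (4 * 2 ^ ex m a)) / 2, 1 / 2) (Or.inr ?_)
    simp only [R, bl_zero]
    have hN : 1 ≤ 2 ^ ex m a := Nat.one_le_two_pow
    have e2 : (((2 ^ ex m a - 1 : ℕ) : ℝ) + 1) / (2 * 2 ^ ex m a) = 1 / 2 := by
      rw [Nat.cast_sub hN]; push_cast
      field_simp; ring
    rw [e2]
    have e3 : ((2 * y : ℕ) : ℝ) / (4 * 2 ^ ex m a) = y / (2 * 2 ^ ex m a) := by
      push_cast; field_simp; ring
    have e4 : ((y : ℝ) + 1) / (2 * 2 ^ ex m a) =
        (((2 * y : ℕ) : ℝ) + 1) / (4 * 2 ^ ex m a) + 1 / (4 * 2 ^ ex m a) := by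
      push_cast; field_simp; ring
    have e5 : (0 : ℝ) < 1 / (4 * 2 ^ ex m a) := by positivity
    rw [e4]
    refine ⟨rfl, by linarith, by linarith, by simp, by linarith, by linarith⟩
  | bb d a t y y' h1 h2 h3 h4 =>
    obtain ⟨z, z1, z2, z3, z4⟩ := overlap h4
    cases d with
    | false =>
      refine side_same ((a.val : ℝ) + 1 / 2 + (t + 1) / (10 * m.n), z) (Or.inl ?_)
      simp only [R]
      push_cast
      exact ⟨trivial, z1, z2, rfl, z3, z4⟩
    | true =>
      refine side_same ((a.val : ℝ) + z, 1 / 2 + (t + 1) / (10 * m.n)) (Or.inr ?_)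
      simp only [R]
      push_cast
      exact ⟨trivial, by linarith, by linarith, rfl, by linarith, by linarith⟩
  | e0 a y h1 =>
    have e1 := step_lt (y : ℝ) (2 * 2 ^ ex m (a + 1)) (by positivity)
    obtain ⟨n, hn⟩ := val_add_one a
    have hend : bl m false a (5 * m.n - 1) = ex m (a + 1) := bl_end m hm false a
    have e2 : (((5 * m.n - 1 : ℕ) : ℝ) + 1) / (10 * m.n) = 1 / 2 := by
      rw [Nat.cast_sub (by omega)]; push_cast
      field_simp; ring
    refine ⟨((a.val : ℝ) + 1, ((y : ℝ) / (2 * 2 ^ ex m (a + 1)) + (y + 1) / (2 * 2 ^ ex m (a + 1))) / 2),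
      ((((a + 1 : Fin 5)).val : ℝ), ((y : ℝ) / (2 * 2 ^ ex m (a + 1)) +
        (y + 1) / (2 * 2 ^ ex m (a + 1))) / 2), ?_, Or.inl ?_⟩
    · apply cov_shift _ _ (-n) 0
      · simp
      · push_cast
        rw [hn]; ring
    · simp only [R, hend, e2]
      refine ⟨by ring, by linarith, by linarith, by simp, by linarith, by linarith⟩
  | e1 a y h1 =>
    have e1 := step_lt ((2 * y : ℕ) : ℝ) (4 * 2 ^ ex m (a + 2)) (by positivity)
    obtain ⟨n, hn⟩ := val_add_two a
    have hend : bl m true a (5 * m.n - 1) = ex m (a + 2) := bl_end m hm true a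
    have e2 : (((5 * m.n - 1 : ℕ) : ℝ) + 1) / (10 * m.n) = 1 / 2 := by
      rw [Nat.cast_sub (by omega)]; push_cast
      field_simp; ring
    have e3 : ((2 * y : ℕ) : ℝ) / (4 * 2 ^ ex m (a + 2)) = y / (2 * 2 ^ ex m (a + 2)) := by
      push_cast; field_simp; ring
    have e4 : ((y : ℝ) + 1) / (2 * 2 ^ ex m (a + 2)) =
        (((2 * y : ℕ) : ℝ) + 1) / (4 * 2 ^ ex m (a + 2)) + 1 / (4 * 2 ^ ex m (a + 2)) := by
      push_cast; field_simp; ring
    have e5 : (0 : ℝ) < 1 / (4 * 2 ^ ex m (a + 2)) := by positivity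
    refine ⟨((a.val : ℝ) + (((2 * y : ℕ) : ℝ) / (4 * 2 ^ ex m (a + 2)) +
      (((2 * y : ℕ) : ℝ) + 1) / (4 * 2 ^ ex m (a + 2))) / 2, 1),
      ((((a + 2 : Fin 5)).val : ℝ) + (((2 * y : ℕ) : ℝ) / (4 * 2 ^ ex m (a + 2)) +
      (((2 * y : ℕ) : ℝ) + 1) / (4 * 2 ^ ex m (a + 2))) / 2, 0), ?_, Or.inr ?_⟩
    · apply cov_shift _ _ (-n) (-1)
      · simp
      · push_cast
        rw [hn]; ring
    · simp only [R, hend, e2]
      rw [e4]
      refine ⟨by norm_num, by linarith, by linarith, by simp, by linarith, by linarith⟩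

theorem toroidal (m : Pr) (hm : 0 < m.m ∧ 0 < m.r) : Toroidal (G m hm) := by
  refine Pool.Agent.Helper448.TTile.exists_drawing cov_continuous cov_open (G m hm) (fun u w => E m u.1 w.1)
    (fun u w => Iff.rfl) (fun u w h => E_asymm m hm h) (fun v => R m v.1)
    (fun v => R_pos hm v.1) ?_ (fun u w h => sides hm h)
  intro u w a ha b hb hab
  have h := cov_inj (mem_dom hm u.2 ha) (mem_dom hm w.2 hb) hab
  subst h
  exact ⟨Subtype.ext (tile_disj hm u.2 w.2 ha hb), rfl⟩

end Pool.Agent.Y418.TQ.TGeo
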