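import Mathlib
import Pool.Agent.Y418.TQ.TCount
import Pool.Agent.Y418.TQ.TGeo
import Pool.Agent.Helper448.VanKampen

set_option autoImplicit false

namespace Pool.Agent.Y418.TQ.TFin

open Pool.Agent.Helper448.TDefs Pool.Agent.Y418.TQ.TGraph Pool.Agent.Y418.TQ.TDeg
  Pool.Agent.Helper448.TProb Pool.Agent.Y418.TQ.TPath Pool.Agent.Y418.TQ.TCyl
  Pool.Agent.Y418.TQ.TCount

/-- The band joining two different hubs. -/
def bandOf (a b : Fin 5) : Bool × Fin 5 :=
  if b = a + 1 then (false, a) else if b = a + 2 then (true, a)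
  else if a = b + 1 then (false, b) else (true, b)

lemma bandOf_spec : ∀ a b : Fin 5, a ≠ b →
    ((bandOf a b).2 = a ∧ nb (bandOf a b).1 (bandOf a b).2 = b) ∨
    ((bandOf a b).2 = b ∧ nb (bandOf a b).1 (bandOf a b).2 = a) := by
  decide

lemma disj_of (a b c d : Fin 5) (hab : a ≠ b) (hcd : c ≠ d) (h1 : a ≠ c) (h2 : a ≠ d)
    (h3 : b ≠ c) (h4 : b ≠ d) :
    Disj (bandOf a b).1 (bandOf a b).2 (bandOf c d).1 (bandOf c d).2 := by
  unfold Disj
  rcases bandOf_spec a b hab with ⟨e1, e2⟩ | ⟨e1, e2⟩ <;>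
  rcases bandOf_spec c d hcd with ⟨e3, e4⟩ | ⟨e3, e4⟩ <;>
  rw [e2, e4, e1, e3]
  · exact ⟨h1, h2, h3, h4⟩
  · exact ⟨h2, h1, h4, h3⟩
  · exact ⟨h3, h4, h1, h2⟩
  · exact ⟨h4, h3, h2, h1⟩

lemma nb_ne : ∀ (d : Bool) (a : Fin 5), nb d a ≠ a := by decide

lemma crossings_comm {X : Type} [TopologicalSpace X] {V : Type} {G : SimpleGraph V}
    (D : Drawing X G) (e f : Sym2 V) : D.crossings e f = D.crossings f e := by
  ext x
  exact ⟨fun h => ⟨h.2, h.1⟩, fun h => ⟨h.2, h.1⟩⟩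

section

variable {m : Pr} {hm : 0 < m.m ∧ 0 < m.r} {F : Set (Sym2 (W m))}
  (D : Drawing Plane ((G m hm).deleteEdges F))

/-- The used part of the drawing. -/
def SS (d : Bool) (a : Fin 5) (ω : Om m) : Set Plane :=
  {z | ∃ u w : W m, U m d a ω u.1 w.1 ∧ ∃ t, D.arc s(u, w) t = z}

variable {D}

lemma arc_mem {d : Bool} {a : Fin 5} {ω : Om m} (hF : ∀ u w : W m, U m d a ω u.1 w.1 →
    s(u, w) ∉ F) {u w : W m} (h : U m d a ω u.1 w.1) :
    s(u, w) ∈ ((G m hm).deleteEdges F).edgeSet := by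
  rw [SimpleGraph.edgeSet_deleteEdges]
  exact ⟨Or.inl (U_E h), hF u w h⟩

lemma joined_one {d : Bool} {a : Fin 5} {ω : Om m} (hF : ∀ u w : W m, U m d a ω u.1 w.1 →
    s(u, w) ∉ F) {u w : W m} (h : U m d a ω u.1 w.1) :
    JoinedIn (SS D d a ω) (D.pt u) (D.pt w) := by
  have he := arc_mem (hm := hm) hF h
  have hends := D.arc_ends _ he
  rw [Sym2.map_mk] at hends
  have hmem : ∀ t, D.arc s(u, w) t ∈ SS D d a ω := fun t => ⟨u, w, h, t, rfl⟩
  have hc := D.arc_continuous _ he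
  rcases Sym2.eq_iff.mp hends with ⟨h0, h1⟩ | ⟨h0, h1⟩
  · exact ⟨⟨⟨D.arc s(u, w), hc⟩, h0, h1⟩, hmem⟩
  · exact JoinedIn.symm ⟨⟨⟨D.arc s(u, w), hc⟩, h0, h1⟩, hmem⟩

lemma joined_conn {d : Bool} {a : Fin 5} {ω : Om m} (hF : ∀ u w : W m, U m d a ω u.1 w.1 →
    s(u, w) ∉ F) {u w : Vx} (h : Conn m d a ω u w) (hne : u ≠ w) (hu : valid m u) :
    ∃ hw : valid m w, JoinedIn (SS D d a ω) (D.pt ⟨u, hu⟩) (D.pt ⟨w, hw⟩) := by
  have hstep : ∀ x y : Vx, (U m d a ω x y ∨ U m d a ω y x) → valid m x ∧ valid m y := by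
    intro x y hxy
    rcases hxy with hxy | hxy
    · exact E_valid m hm (U_E hxy)
    · exact (E_valid m hm (U_E hxy)).symm
  have hj : ∀ (x y : Vx) (hx : valid m x) (hy : valid m y), (U m d a ω x y ∨ U m d a ω y x) →
      JoinedIn (SS D d a ω) (D.pt ⟨x, hx⟩) (D.pt ⟨y, hy⟩) := by
    intro x y hx hy hxy
    rcases hxy with hxy | hxy
    · exact joined_one hF (u := ⟨x, hx⟩) (w := ⟨y, hy⟩) hxy
    · exact (joined_one hF (u := ⟨y, hy⟩) (w := ⟨x, hx⟩) hxy).symm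
  have hmem : D.pt ⟨u, hu⟩ ∈ SS D d a ω := by
    rcases Relation.ReflTransGen.cases_head h with h0 | ⟨v, hv, _⟩
    · exact (hne h0).elim
    · exact (hj u v hu (hstep u v hv).2 hv).source_mem
  clear hne
  induction h with
  | refl => exact ⟨hu, JoinedIn.refl hmem⟩
  | tail _ hst ih =>
    obtain ⟨hv, hJ⟩ := ih
    have hy := (hstep _ _ hst).2
    exact ⟨hy, hJ.trans (hj _ _ hv hy hst)⟩

lemma SS_disjoint {ω : Om m} {d : Bool} {a : Fin 5} {d' : Bool} {a' : Fin 5}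
    (hF : ∀ d a, ∀ u w : W m, U m d a ω u.1 w.1 → s(u, w) ∉ F) (hd : Disj d a d' a')
    (hX : ∀ u w u' w' : W m, U m d a ω u.1 w.1 → U m d' a' ω u'.1 w'.1 →
      ¬ (D.crossings s(u, w) s(u', w')).Nonempty) :
    Disjoint (SS D d a ω) (SS D d' a' ω) := by
  rw [Set.disjoint_left]
  rintro z ⟨u, w, hu, t, ht⟩ ⟨u', w', hu', t', ht'⟩
  have he := arc_mem (hm := hm) (hF d a) hu
  have he' := arc_mem (hm := hm) (hF d' a') hu'
  have hr := U_reg hu
  have hr' := U_reg hu'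
  -- vertices are disjoint
  have hv : ∀ v : W m, v ∈ s(u, w) → v ∈ s(u', w') → False := by
    intro v h1 h2
    have h3 : inReg d a v.1 := by
      rcases Sym2.mem_iff.mp h1 with rfl | rfl
      · exact hr.1
      · exact hr.2
    have h4 : inReg d' a' v.1 := by
      rcases Sym2.mem_iff.mp h2 with rfl | rfl
      · exact hr'.1
      · exact hr'.2
    exact reg_disj hd.1 hd.2.1 hd.2.2.1 hd.2.2.2 h3 h4
  -- endpoints
  have hend : ∀ e ∈ ((G m hm).deleteEdges F).edgeSet, ∀ s : unitInterval, ¬ s ∈ Set.Ioo 0 1 →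
      ∃ v, v ∈ e ∧ D.arc e s = D.pt v := by
    intro e he s hs
    induction e with
    | _ x y =>
      have hends := D.arc_ends _ he
      rw [Sym2.map_mk] at hends
      have hs' : s = 0 ∨ s = 1 := by
        by_contra hcon
        push Not at hcon
        exact hs ⟨lt_of_le_of_ne unitInterval.nonneg' hcon.1.symm,
          lt_of_le_of_ne unitInterval.le_one' hcon.2⟩
      rcases Sym2.eq_iff.mp hends with ⟨h0, h1⟩ | ⟨h0, h1⟩ <;> rcases hs' with rfl | rfl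
      · exact ⟨x, Sym2.mem_mk_left _ _, h0⟩
      · exact ⟨y, Sym2.mem_mk_right _ _, h1⟩
      · exact ⟨y, Sym2.mem_mk_right _ _, h0⟩
      · exact ⟨x, Sym2.mem_mk_left _ _, h1⟩
  by_cases h1 : t ∈ Set.Ioo (0 : unitInterval) 1
  · by_cases h2 : t' ∈ Set.Ioo (0 : unitInterval) 1
    · exact hX u w u' w' hu hu' ⟨z, ⟨t, h1, ht⟩, ⟨t', h2, ht'⟩⟩
    · obtain ⟨v, hve, hvt⟩ := hend _ he' t' h2
      exact hv v (D.arc_avoids _ he v t (ht.trans (ht'.symm.trans hvt))) hve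
  · obtain ⟨v, hve, hvt⟩ := hend _ he t h1
    exact hv v hve (D.arc_avoids _ he' v t' (ht'.trans (ht.symm.trans hvt)))

end

/-- The plane as complex numbers. -/
noncomputable def phi (p : Plane) : ℂ := ⟨p 0, p 1⟩

lemma phi_cont : Continuous phi := by
  have : phi = fun p : Plane => ((p 0 : ℝ) : ℂ) + ((p 1 : ℝ) : ℂ) * Complex.I := by
    funext p
    apply Complex.ext <;> simp [phi]
  rw [this]
  fun_prop

lemma phi_inj : Function.Injective phi := by
  intro p q h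
  have h0 : p 0 = q 0 := congrArg Complex.re h
  have h1 : p 1 = q 1 := congrArg Complex.im h
  ext i
  fin_cases i
  · exact h0
  · exact h1


/-- The edges of `G` other than `e` whose curves meet the curve of `e` in an interior point of
both curves. -/
def crossing {X : Type} [TopologicalSpace X] {V : Type} {G : SimpleGraph V} (D : Drawing X G)
    (e : Sym2 V) : Set (Sym2 V) :=
  {f | f ∈ G.edgeSet ∧ f ≠ e ∧ (D.crossings e f).Nonempty}

theorem no_drawing (m : Pr) (hm : 0 < m.m ∧ 0 < m.r) (s k : ℕ)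
    (hk : 40 * s * (1 / 2 : ℝ) ^ m.m + 400 * k * (5 * m.n + 2) * (1 / 2 : ℝ) ^ m.m +
      80000 * k * (1 / 2 : ℝ) ^ m.r < 1)
    (F : Set (Sym2 (W m))) (hF : F.encard ≤ s) (D : Drawing Plane ((G m hm).deleteEdges F)) :
    ∃ e ∈ ((G m hm).deleteEdges F).edgeSet, (k : ℕ∞) < (crossing D e).encard := by
  classical
  by_contra hno
  push Not at hno
  have hD : ∀ e ∈ ((G m hm).deleteEdges F).edgeSet, (crossing D e).encard ≤ k := hno
  let em : Sym2 (W m) → Sym2 Vx := Sym2.map Subtype.val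
  have hem : Function.Injective em := Sym2.map.injective Subtype.val_injective
  let Xr : Sym2 Vx → Sym2 Vx → Prop := fun p q => ∃ e f : Sym2 (W m), em e = p ∧ em f = q ∧
    e ∈ ((G m hm).deleteEdges F).edgeSet ∧ f ∈ ((G m hm).deleteEdges F).edgeSet ∧ e ≠ f ∧
      (D.crossings e f).Nonempty
  have hsym : ∀ p q, Xr p q → Xr q p := by
    rintro p q ⟨e, f, h1, h2, h3, h4, h5, h6⟩
    exact ⟨f, e, h2, h1, h4, h3, h5.symm, by rwa [crossings_comm]⟩
  have hfin : ∀ p, {q | Xr p q}.encard ≤ k := by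
    intro p
    by_cases hp : ∃ e, em e = p ∧ e ∈ ((G m hm).deleteEdges F).edgeSet
    · obtain ⟨e, rfl, he⟩ := hp
      have hsub : {q | Xr (em e) q} ⊆ em '' crossing D e := by
        rintro q ⟨e', f, h1, h2, h3, h4, h5, hx⟩
        have := hem h1
        subst this
        exact ⟨f, ⟨h4, h5.symm, hx⟩, h2⟩
      exact ((Set.encard_le_encard hsub).trans (Set.encard_image_le _ _)).trans (hD e he)
    · have : {q | Xr p q} = ∅ := by
        rw [Set.eq_empty_iff_forall_notMem]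
        rintro q ⟨e, f, h1, h2, h3, h4, h5, h6⟩
        exact hp ⟨e, h1, h3⟩
      rw [this, Set.encard_empty]
      exact bot_le
  have hfin' : ∀ p, {q | Xr p q}.Finite ∧ {q | Xr p q}.ncard ≤ k := fun p =>
    Set.encard_le_coe_iff_finite_ncard_le.mp (hfin p)
  let T : Sym2 Vx → Finset (Sym2 Vx) := fun p => (hfin' p).1.toFinset
  have hT : ∀ p, (T p).card ≤ k := by
    intro p
    have := (hfin' p).2
    rwa [Set.ncard_eq_toFinset_card _ (hfin' p).1] at this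
  have hX : ∀ p q, Xr p q → q ∈ T p := by
    intro p q h
    rw [Set.Finite.mem_toFinset]
    exact h
  have hFe : (em '' F).encard ≤ s := (Set.encard_image_le _ _).trans hF
  obtain ⟨hFf, hFn⟩ := Set.encard_le_coe_iff_finite_ncard_le.mp hFe
  rw [Set.ncard_eq_toFinset_card _ hFf] at hFn
  obtain ⟨ω, hω1, hω2⟩ := exists_good (m := m) s k hk Xr hsym T hT hX hFf.toFinset hFn
  have hF' : ∀ d a, ∀ u w : W m, U m d a ω u.1 w.1 → s(u, w) ∉ F := by
    intro d a u w hu hmem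
    apply hω1 d a u.1 w.1 hu
    rw [Set.Finite.mem_toFinset]
    exact ⟨s(u, w), hmem, rfl⟩
  have hval : ∀ x, valid m (ctr m ω x) := fun x =>
    ⟨two_lt _ _, vl_lt ω _ (ex_le m x)⟩
  have hctr : ∀ d a, ctr m ω a ≠ ctr m ω (nb d a) := by
    intro d a h
    unfold ctr at h
    rw [Vx.hub.injEq] at h
    exact nb_ne d a h.1.symm
  have hjoin : ∀ d a, JoinedIn (SS D d a ω) (D.pt ⟨_, hval a⟩) (D.pt ⟨_, hval (nb d a)⟩) := by
    intro d a
    obtain ⟨h1, h2⟩ := joined_conn (D := D) (hF' d a) (conn_main hm) (hctr d a) (hval a)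
    exact h2
  have hdis : ∀ d a d' a', Disj d a d' a' → Disjoint (SS D d a ω) (SS D d' a' ω) := by
    intro d a d' a' hd
    apply SS_disjoint hF' hd
    intro u w u' w' hu hu' hne
    apply hω2 d a d' a' hd u.1 w.1 u'.1 w'.1 hu hu'
    refine ⟨s(u, w), s(u', w'), rfl, rfl, arc_mem (hF' d a) hu, arc_mem (hF' d' a') hu', ?_, hne⟩
    intro he
    have hr := U_reg hu
    have hr' := U_reg hu'
    rcases Sym2.eq_iff.mp he with ⟨rfl, rfl⟩ | ⟨rfl, rfl⟩
    · exact reg_disj hd.1 hd.2.1 hd.2.2.1 hd.2.2.2 hr.1 hr'.1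
    · exact reg_disj hd.1 hd.2.1 hd.2.2.1 hd.2.2.2 hr.1 hr'.2
  refine Pool.Agent.Helper448.VanKampen.k5_joined (fun x => phi (D.pt ⟨_, hval x⟩))
    (fun a b => phi '' SS D (bandOf a b).1 (bandOf a b).2 ω) ?_ ?_
  · intro a b hab
    have key : ∀ x y, JoinedIn (SS D (bandOf a b).1 (bandOf a b).2 ω) x y →
        JoinedIn (phi '' SS D (bandOf a b).1 (bandOf a b).2 ω) (phi x) (phi y) := by
      rintro x y ⟨γ, hγ⟩
      exact ⟨γ.map phi_cont, fun t => ⟨γ t, hγ t, rfl⟩⟩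
    have hj := hjoin (bandOf a b).1 (bandOf a b).2
    have heq : ∀ x y : Fin 5, x = y → D.pt ⟨_, hval x⟩ = D.pt ⟨_, hval y⟩ := by
      rintro x y rfl; rfl
    rcases bandOf_spec a b hab.ne with ⟨e1, e2⟩ | ⟨e1, e2⟩
    · rw [heq _ _ e1, heq _ _ e2] at hj
      exact key _ _ hj
    · rw [heq _ _ e1, heq _ _ e2] at hj
      exact key _ _ hj.symm
  · intro a b c d hab hcd h1 h2 h3 h4
    exact (Set.disjoint_image_iff phi_inj).mpr
      (hdis _ _ _ _ (disj_of a b c d hab.ne hcd.ne h1 h2 h3 h4))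

lemma bl_le4 (m : Pr) (d : Bool) (a : Fin 5) (t : ℕ) : bl m d a t ≤ m.m + 4 * m.r := by
  have h1 := ex_le4 m a
  have h2 := ex_le4 m (nb d a)
  unfold bl lev
  split_ifs <;> omega

/-- The finite set of codes containing the valid ones. -/
def Sc (m : Pr) : Finset Vx :=
  ((Finset.univ : Finset (Fin 5)) ×ˢ (Finset.range (2 * 2 ^ (m.m + 4 * m.r)) ×ˢ
    Finset.range (2 ^ (m.m + 4 * m.r)))).image (fun q => Vx.hub q.1 q.2.1 q.2.2) ∪
  ((Finset.univ : Finset (Bool × Fin 5)) ×ˢ (Finset.range (5 * m.n) ×ˢ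
    Finset.range (2 ^ (m.m + 4 * m.r)))).image (fun q => Vx.band q.1.1 q.1.2 q.2.1 q.2.2)

lemma valid_sub (m : Pr) : {v : Vx | valid m v} ⊆ (Sc m : Set Vx) := by
  intro v hv
  cases v with
  | hub a X j =>
    have h2 : 2 ^ ex m a ≤ 2 ^ (m.m + 4 * m.r) := Nat.pow_le_pow_right (by norm_num) (ex_le4 m a)
    obtain ⟨h3, h4⟩ := hv
    refine Finset.mem_coe.2 (Finset.mem_union_left _ (Finset.mem_image.2 ⟨(a, X, j), ?_, rfl⟩))
    simp only [Finset.mem_product, Finset.mem_univ, Finset.mem_range, true_and]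
    exact ⟨by omega, by omega⟩
  | band d a t y =>
    have h2 : 2 ^ bl m d a t ≤ 2 ^ (m.m + 4 * m.r) :=
      Nat.pow_le_pow_right (by norm_num) (bl_le4 m d a t)
    obtain ⟨h3, h4⟩ := hv
    refine Finset.mem_coe.2 (Finset.mem_union_right _
      (Finset.mem_image.2 ⟨((d, a), t, y), ?_, rfl⟩))
    simp only [Finset.mem_product, Finset.mem_univ, Finset.mem_range, true_and]
    exact ⟨by omega, by omega⟩

instance finW (m : Pr) : Finite (W m) :=
  ((Finset.finite_toSet (Sc m)).subset (valid_sub m)).to_subtype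

/-- The number of vertices. -/
lemma card_W (m : Pr) : Nat.card (W m) ≤ 60 * ((2 ^ m.m) ^ 2 * (2 ^ m.r) ^ 8) := by
  have h1 : Nat.card (W m) = {v : Vx | valid m v}.ncard := Nat.card_coe_set_eq _
  have h2 : {v : Vx | valid m v}.ncard ≤ (Sc m).card := by
    rw [← Set.ncard_coe_finset]
    exact Set.ncard_le_ncard (valid_sub m) (Finset.finite_toSet _)
  have h3 : (Sc m).card ≤ 5 * (2 * 2 ^ (m.m + 4 * m.r) * 2 ^ (m.m + 4 * m.r)) +
      10 * (5 * m.n * 2 ^ (m.m + 4 * m.r)) := by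
    refine (Finset.card_union_le _ _).trans (add_le_add ?_ ?_)
    · refine Finset.card_image_le.trans (le_of_eq ?_)
      simp only [Finset.card_product, Finset.card_range, Finset.card_univ, Fintype.card_fin]
    · refine Finset.card_image_le.trans (le_of_eq ?_)
      simp only [Finset.card_product, Finset.card_range, Finset.card_univ, Fintype.card_prod,
        Fintype.card_bool, Fintype.card_fin]
  have h4 : m.n ≤ 2 ^ (m.m + 4 * m.r) := by
    have h5 : m.m + 4 * m.r < 2 ^ (m.m + 4 * m.r) := Nat.lt_two_pow_self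
    have := m.hn
    omega
  have h5 : (2 ^ m.m) ^ 2 * (2 ^ m.r) ^ 8 = 2 ^ (m.m + 4 * m.r) * 2 ^ (m.m + 4 * m.r) := by
    rw [← pow_mul, ← pow_mul, ← pow_add, ← pow_add]
    congr 1
    ring
  have h6 : m.n * 2 ^ (m.m + 4 * m.r) ≤ 2 ^ (m.m + 4 * m.r) * 2 ^ (m.m + 4 * m.r) :=
    Nat.mul_le_mul_right _ h4
  rw [h1, h5]
  nlinarith

/-- The choice of the parameters. -/
lemma choose_par (s k : ℕ) (hk : 0 < k) : ∃ m : Pr, (0 < m.m ∧ 0 < m.r) ∧
    40 * s * (1 / 2 : ℝ) ^ m.m + 400 * k * (5 * m.n + 2) * (1 / 2 : ℝ) ^ m.m +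
      80000 * k * (1 / 2 : ℝ) ^ m.r < 1 ∧
    2 ^ m.m ≤ 2 ^ 19 * (s + k * (Nat.log 2 k + 1)) ∧ 2 ^ m.r ≤ 2 ^ 19 * k := by
  set a := Nat.log 2 k with ha
  set Q := s + k * (a + 1) with hQ
  have hka : k * (a + 1) ≤ Q := Nat.le_add_left _ _
  have hsQ : s ≤ Q := Nat.le_add_right _ _
  have hkQ : k ≤ Q := (Nat.le_mul_of_pos_right _ (Nat.succ_pos a)).trans hka
  have hQ0 : Q ≠ 0 := by omega
  set l := Nat.log 2 Q with hl
  have hl1 : 2 ^ l ≤ Q := Nat.pow_log_le_self 2 hQ0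
  have hl2 : Q < 2 ^ (l + 1) := Nat.lt_pow_succ_log_self (by norm_num) Q
  have ha1 : 2 ^ a ≤ k := Nat.pow_log_le_self 2 hk.ne'
  have ha2 : k < 2 ^ (a + 1) := Nat.lt_pow_succ_log_self (by norm_num) k
  have hkl : k * l ≤ 2 * Q := by
    rcases Nat.le_total l (a + 1) with h | h
    · have := Nat.mul_le_mul_left k h
      omega
    · obtain ⟨x, hx⟩ := Nat.exists_eq_add_of_le h
      have h1 : k * x ≤ Q := by
        calc k * x ≤ 2 ^ (a + 1) * 2 ^ x := Nat.mul_le_mul ha2.le (Nat.lt_two_pow_self).le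
          _ = 2 ^ l := by rw [hx, ← pow_add]
          _ ≤ Q := hl1
      have h2 : k * l = k * (a + 1) + k * x := by rw [hx]; ring
      omega
  refine ⟨⟨l + 19, a + 19, (l + 19) + (a + 19), rfl⟩, ⟨by simp, by simp⟩, ?_, ?_, ?_⟩
  · simp only
    -- the first two terms
    have h1 : 80 * s + 800 * k * (5 * ((l + 19) + (a + 19)) + 2) ≤ 2 ^ (l + 19) := by
      have e1 : 800 * k * (5 * ((l + 19) + (a + 19)) + 2) =
          4000 * (k * l) + 4000 * (k * (a + 1)) + 149600 * k := by ring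
      have e2 : 2 ^ (l + 19) = 2 ^ 18 * 2 ^ (l + 1) := by
        rw [← pow_add]
        congr 1
        omega
      rw [e1, e2]
      have h3 : 2 ^ 18 * Q ≤ 2 ^ 18 * 2 ^ (l + 1) := Nat.mul_le_mul_left _ hl2.le
      norm_num at h3 ⊢
      omega
    have h2 : 262144 * k < 2 ^ (a + 19) := by
      have e2 : 2 ^ (a + 19) = 2 ^ 18 * 2 ^ (a + 1) := by
        rw [← pow_add]
        congr 1
        omega
      rw [e2]
      norm_num
      exact ha2
    have h1R : (80 : ℝ) * s + 800 * k * (5 * (((l + 19) + (a + 19) : ℕ) : ℝ) + 2) ≤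
        2 ^ (l + 19) := by exact_mod_cast h1
    have h2R : (262144 : ℝ) * k < 2 ^ (a + 19) := by exact_mod_cast h2
    have p1 : (0 : ℝ) < 2 ^ (l + 19) := by positivity
    have p2 : (0 : ℝ) < 2 ^ (a + 19) := by positivity
    have q1 : (40 : ℝ) * s * (1 / 2 : ℝ) ^ (l + 19) +
        400 * k * (5 * (((l + 19) + (a + 19) : ℕ) : ℝ) + 2) * (1 / 2 : ℝ) ^ (l + 19) ≤ 1 / 2 := by
      have e : (40 : ℝ) * s * (1 / 2 : ℝ) ^ (l + 19) +
          400 * k * (5 * (((l + 19) + (a + 19) : ℕ) : ℝ) + 2) * (1 / 2 : ℝ) ^ (l + 19) =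
          (80 * s + 800 * k * (5 * (((l + 19) + (a + 19) : ℕ) : ℝ) + 2)) / (2 * 2 ^ (l + 19)) := by
        rw [one_div, inv_pow]
        field_simp
        ring
      rw [e, div_le_div_iff₀ (by positivity) (by norm_num)]
      linarith
    have q2 : (80000 : ℝ) * k * (1 / 2 : ℝ) ^ (a + 19) < 1 / 2 := by
      have e : (80000 : ℝ) * k * (1 / 2 : ℝ) ^ (a + 19) = (80000 * k) / 2 ^ (a + 19) := by
        rw [one_div, inv_pow]
        field_simp
      have hk0 : (0 : ℝ) ≤ k := by positivity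
      rw [e, div_lt_div_iff₀ p2 (by norm_num)]
      linarith
    linarith
  · simp only
    calc 2 ^ (l + 19) = 2 ^ 19 * 2 ^ l := by rw [pow_add]; ring
      _ ≤ 2 ^ 19 * Q := Nat.mul_le_mul_left _ hl1
  · simp only
    calc 2 ^ (a + 19) = 2 ^ 19 * 2 ^ a := by rw [pow_add]; ring
      _ ≤ 2 ^ 19 * k := Nat.mul_le_mul_left _ ha1

/-- The explicit form. -/
theorem explicit (s k : ℕ) (hk : 0 < k) : ∃ (V : Type) (_ : Finite V) (G : SimpleGraph V),
    Nat.card V ≤ 2 ^ 196 * (k ^ 8 * (s + k * (Nat.log 2 k + 1)) ^ 2) ∧ Toroidal G ∧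
    (∀ v, (G.neighborSet v).encard ≤ 3) ∧
    ∀ F : Set (Sym2 V), F.encard ≤ s → ∀ D : Drawing Plane (G.deleteEdges F),
      ∃ e ∈ (G.deleteEdges F).edgeSet, (k : ℕ∞) < (crossing D e).encard := by
  obtain ⟨m, hm, h1, h2, h3⟩ := choose_par s k hk
  refine ⟨W m, inferInstance, G m hm, ?_, TGeo.toroidal m hm, degree m hm,
    fun F hF D => no_drawing m hm s k h1 F hF D⟩
  calc Nat.card (W m) ≤ 60 * ((2 ^ m.m) ^ 2 * (2 ^ m.r) ^ 8) := card_W m
    _ ≤ 60 * ((2 ^ 19 * (s + k * (Nat.log 2 k + 1))) ^ 2 * (2 ^ 19 * k) ^ 8) :=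
        Nat.mul_le_mul_left _ (Nat.mul_le_mul (Nat.pow_le_pow_left h2 _)
          (Nat.pow_le_pow_left h3 _))
    _ = (60 * 2 ^ 190) * (k ^ 8 * (s + k * (Nat.log 2 k + 1)) ^ 2) := by
        rw [mul_pow, mul_pow]; ring
    _ ≤ 2 ^ 196 * (k ^ 8 * (s + k * (Nat.log 2 k + 1)) ^ 2) :=
        Nat.mul_le_mul_right _ (by norm_num)

end Pool.Agent.Y418.TQ.TFin
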